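import Mathlib

/-!
# Jacobian syzygies and tameness

Throughout `n = k + 1` and the polynomial ring is `S = ℂ[x_0, ..., x_n]`.
-/

namespace Pool.Agent.Q41.TM

open MvPolynomial

/-- the graded module `D_0(f)` of Jacobian syzygies -/
noncomputable def D0 {k : ℕ} (f : MvPolynomial (Fin (k + 2)) ℂ) :
    Submodule (MvPolynomial (Fin (k + 2)) ℂ) (Fin (k + 2) → MvPolynomial (Fin (k + 2)) ℂ) where
  carrier := {a | ∑ j, a j * pderiv j f = 0}
  add_mem' := by
    intro a b ha hb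
    simp only [Set.mem_ofPred_eq] at ha hb ⊢
    simp only [Pi.add_apply, add_mul, Finset.sum_add_distrib, ha, hb, add_zero]
  zero_mem' := by simp
  smul_mem' := by
    intro c a ha
    simp only [Set.mem_ofPred_eq] at ha ⊢
    simp only [Pi.smul_apply, smul_eq_mul, mul_assoc, ← Finset.mul_sum, ha, mul_zero]

/-- a homogeneous element of degree `e` of `S ^ (n + 1)` -/
def IsHom {k : ℕ} (r : Fin (k + 2) → MvPolynomial (Fin (k + 2)) ℂ) (e : ℕ) : Prop :=
  ∀ j, (r j).IsHomogeneous e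

/-- a finite family of homogeneous syzygies which generates `D_0(f)` -/
def IsGens {k : ℕ} (f : MvPolynomial (Fin (k + 2)) ℂ) (m : ℕ)
    (r : Fin m → Fin (k + 2) → MvPolynomial (Fin (k + 2)) ℂ) : Prop :=
  (∀ i, ∃ e, IsHom (r i) e) ∧ Submodule.span (MvPolynomial (Fin (k + 2)) ℂ) (Set.range r) = D0 f

/-- a minimal set of generators: the number of the generators is minimal -/
def IsMinGens {k : ℕ} (f : MvPolynomial (Fin (k + 2)) ℂ) (m : ℕ)
    (r : Fin m → Fin (k + 2) → MvPolynomial (Fin (k + 2)) ℂ) : Prop :=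
  IsGens f m r ∧ ∀ (m' : ℕ) (r' : Fin m' → Fin (k + 2) → MvPolynomial (Fin (k + 2)) ℂ),
    IsGens f m' r' → m ≤ m'

/-- the matrix with the rows `(x_0, ..., x_n)`, `r_1, ..., r_{n-1}`, `s` -/
noncomputable def MM {k : ℕ} (r : Fin k → Fin (k + 2) → MvPolynomial (Fin (k + 2)) ℂ)
    (s : Fin (k + 2) → MvPolynomial (Fin (k + 2)) ℂ) :
    Matrix (Fin (k + 2)) (Fin (k + 2)) (MvPolynomial (Fin (k + 2)) ℂ) :=
  Matrix.of (Fin.cons (fun j => X j) (Fin.snoc r s) :
    Fin (k + 1 + 1) → Fin (k + 2) → MvPolynomial (Fin (k + 2)) ℂ)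

/-- `V : f = 0` is tame with respect to the `(n - 1)`-tuple `r`: the map
`u(a) = a_1 r_1 + ... + a_{n-1} r_{n-1}` is injective, and its image is the kernel of
`v(s) = det M(r, s) / f` on `D_0(f)`. -/
def Tame {k : ℕ} (f : MvPolynomial (Fin (k + 2)) ℂ)
    (r : Fin k → Fin (k + 2) → MvPolynomial (Fin (k + 2)) ℂ) : Prop :=
  Function.Injective (fun a : Fin k → MvPolynomial (Fin (k + 2)) ℂ => ∑ i, a i • r i) ∧
    ∀ s ∈ D0 f, (MM r s).det = 0 ↔ ∃ a : Fin k → MvPolynomial (Fin (k + 2)) ℂ, s = ∑ i, a i • r i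

end Pool.Agent.Q41.TM
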