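import Mathlib

/-!
# Linear functionals on finitely generated torsion-free modules over a domain
-/

namespace Pool.Agent.Q41.TM

open nonZeroDivisors

variable {S M : Type*} [CommRing S] [IsDomain S] [AddCommGroup M] [Module S M]

theorem exists_dual [Module.Finite S M] (htf : ∀ (s : S) (m : M), s • m = 0 → s = 0 ∨ m = 0)
    (h : M) (hh : h ≠ 0) : ∃ φ : M →ₗ[S] S, φ h ≠ 0 := by
  let K := FractionRing S
  let V := LocalizedModule S⁰ M
  let ι : M →ₗ[S] V := LocalizedModule.mkLinearMap S⁰ M
  have hv : ι h ≠ 0 := by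
    intro h0
    have h1 := (IsLocalizedModule.eq_zero_iff S⁰ ι).mp h0
    obtain ⟨c, hc⟩ := h1
    rcases htf (c : S) h hc with h2 | h2
    · exact nonZeroDivisors.coe_ne_zero c h2
    · exact hh h2
  obtain ⟨f, hf⟩ : ∃ f : Module.Dual K V, f (ι h) ≠ 0 := by
    by_contra hcon
    push Not at hcon
    exact hv ((Module.forall_dual_apply_eq_zero_iff K (ι h)).mp hcon)
  let g : M →ₗ[S] K := (f.restrictScalars S) ∘ₗ ι
  obtain ⟨t, ht⟩ := (Module.Finite.fg_top : (⊤ : Submodule S M).FG)
  classical
  obtain ⟨b, hb⟩ := IsLocalization.exist_integer_multiples_of_finset (S := K) S⁰ (t.image g)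
  have hb' : ∀ m : M, IsLocalization.IsInteger S ((b : S) • g m) := by
    intro m
    have hm : m ∈ Submodule.span S (t : Set M) := ht ▸ Submodule.mem_top
    induction hm using Submodule.span_induction with
    | mem x hx => exact hb (g x) (Finset.mem_image_of_mem _ hx)
    | zero => rw [map_zero, smul_zero]; exact IsLocalization.isInteger_zero
    | add x y _ _ hx hy => rw [map_add, smul_add]; exact IsLocalization.isInteger_add hx hy
    | smul a x _ hx =>
      rw [map_smul, smul_comm]
      exact IsLocalization.isInteger_smul hx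
  have hinj : Function.Injective (Algebra.linearMap S K) := IsFractionRing.injective S K
  let e := LinearEquiv.ofInjective (Algebra.linearMap S K) hinj
  let g' : M →ₗ[S] LinearMap.range (Algebra.linearMap S K) :=
    LinearMap.codRestrict _ ((b : S) • g) (fun m => by
      obtain ⟨x, hx⟩ := hb' m
      exact ⟨x, hx⟩)
  refine ⟨e.symm.toLinearMap ∘ₗ g', ?_⟩
  intro h0
  have h1 : g' h = 0 := by
    have : e.symm (g' h) = 0 := h0
    rwa [LinearEquiv.map_eq_zero_iff] at this
  have h2 : (b : S) • g h = 0 := congrArg Subtype.val h1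
  rw [Algebra.smul_def, mul_eq_zero] at h2
  rcases h2 with h2 | h2
  · exact nonZeroDivisors.coe_ne_zero b ((IsFractionRing.injective S K) (h2.trans (map_zero _).symm))
  · exact hf h2

end Pool.Agent.Q41.TM
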