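import Pool.Agent.Q41.TM.OneVec

/-!
# Several vectors
-/

namespace Pool.Agent.Q41.TM

open MvPolynomial

universe u

/-- extension of a family by one element -/
def app {α : Type*} {j : ℕ} (a : Fin j → α) (z : α) : Fin (j + 1) → α :=
  fun i => Fin.lastCases (motive := fun _ => α) z a i

theorem app_last {α : Type*} {j : ℕ} (a : Fin j → α) (z : α) : app a z (Fin.last j) = z :=
  Fin.lastCases_last

theorem app_castSucc {α : Type*} {j : ℕ} (a : Fin j → α) (z : α) (i : Fin j) :
    app a z i.castSucc = a i :=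
  Fin.lastCases_castSucc i

theorem many {σ : Type*} (x y : σ) (hxy : x ≠ y) (k : ℕ) : ∀ (M : Type u) [AddCommGroup M]
    [Module (MvPolynomial σ ℂ) M] [Module.Finite (MvPolynomial σ ℂ) M]
    (_ : ∀ (s : MvPolynomial σ ℂ) (m : M), s • m = 0 → s = 0 ∨ m = 0)
    (_ : k + 1 ≤ Module.finrank (MvPolynomial σ ℂ) M) (j : ℕ) (g : Fin j → M)
    (_ : Submodule.span (MvPolynomial σ ℂ) (Set.range g) = ⊤) (e : Fin j → ℕ)
    (_ : Monotone e),
    ∃ (g' : Fin j → M) (ι : Fin k → Fin j), Function.Injective ι ∧
      (∀ i, ∃ a : Fin j → MvPolynomial σ ℂ, (∀ l, (a l).IsHomogeneous (e i - e l)) ∧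
        (∀ l, i ≤ l → a l = 0) ∧ g' i = g i + ∑ l, a l • g l) ∧
      (∀ a : Fin k → MvPolynomial σ ℂ, ∑ i, a i • g' (ι i) = 0 → a = 0) ∧
      (∀ s : MvPolynomial σ ℂ, s ≠ 0 → ∀ (m : M) (a : Fin k → MvPolynomial σ ℂ),
        s • m = ∑ i, a i • g' (ι i) → ∃ b : Fin k → MvPolynomial σ ℂ,
          m = ∑ i, b i • g' (ι i)) := by
  induction k with
  | zero =>
    intro M _ _ _ htf _ j g _ e _
    refine ⟨g, Fin.elim0, fun i => i.elim0, fun i => ⟨0, fun l => ?_, fun _ _ => rfl, ?_⟩, ?_, ?_⟩
    · exact isHomogeneous_zero _ _ _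
    · simp
    · intro a _
      exact Subsingleton.elim _ _
    · intro s hs m a h
      refine ⟨0, ?_⟩
      rw [Finset.univ_eq_empty, Finset.sum_empty] at h
      rw [Finset.univ_eq_empty, Finset.sum_empty]
      exact (htf s m h).resolve_left hs
  | succ k ih =>
    intro M _ _ _ htf hrk j g hg e he
    rcases j with _ | j
    · exfalso
      have h1 : (⊤ : Submodule (MvPolynomial σ ℂ) M) = ⊥ := by
        rw [← hg, Set.range_eq_empty, Submodule.span_empty]
      have h2 : Subsingleton M := by
        rw [← Submodule.subsingleton_iff (MvPolynomial σ ℂ)]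
        exact subsingleton_of_bot_eq_top h1.symm
      have h3 : Module.finrank (MvPolynomial σ ℂ) M = 0 := Module.finrank_zero_of_subsingleton
      omega
    have hspan1 : ∀ v : M,
        Module.finrank (MvPolynomial σ ℂ) (Submodule.span (MvPolynomial σ ℂ) {v}) ≤ 1 := by
      intro v
      have := finrank_span_le_card (R := MvPolynomial σ ℂ) ({v} : Set M)
      simpa using this
    have hr : ∀ v : M, ∃ m : M, ∀ s : MvPolynomial σ ℂ, s ≠ 0 →
        s • m ∉ Submodule.span (MvPolynomial σ ℂ) {v} := by
      intro v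
      apply Submodule.exists_of_finrank_lt
      have := hspan1 v
      omega
    obtain ⟨a, ha, hne, hsat⟩ := one_vector x y hxy htf hr g hg
      (fun i => e (Fin.last j) - e i.castSucc)
    set v := g (Fin.last j) + ∑ i, a i • g i.castSucc with hv
    set N := Submodule.span (MvPolynomial σ ℂ) {v} with hN
    have hNsat : ∀ s : MvPolynomial σ ℂ, s ≠ 0 → ∀ m : M, s • m ∈ N → m ∈ N := by
      intro s hs m hm
      obtain ⟨c, hc⟩ := Submodule.mem_span_singleton.mp hm
      obtain ⟨c', hc'⟩ := hsat s hs m c hc.symm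
      exact Submodule.mem_span_singleton.mpr ⟨c', hc'.symm⟩
    have hrkq : k + 1 ≤ Module.finrank (MvPolynomial σ ℂ) (M ⧸ N) := by
      have h1 := Submodule.finrank_quotient_add_finrank N
      have h2 := hspan1 v
      rw [← hN] at h2
      omega
    have hmkv : N.mkQ v = 0 := by
      rw [Submodule.mkQ_apply, Submodule.Quotient.mk_eq_zero]
      exact Submodule.mem_span_singleton_self v
    have hspanq : Submodule.span (MvPolynomial σ ℂ)
        (Set.range fun i : Fin j => N.mkQ (g i.castSucc)) = ⊤ := by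
      rw [eq_top_iff]
      have h1 : (⊤ : Submodule (MvPolynomial σ ℂ) (M ⧸ N)) =
          Submodule.map N.mkQ (Submodule.span (MvPolynomial σ ℂ) (Set.range g)) := by
        rw [hg, Submodule.map_top, Submodule.range_mkQ]
      rw [h1, Submodule.map_span, Submodule.span_le]
      rintro _ ⟨_, ⟨i, rfl⟩, rfl⟩
      have h2 : ∀ i : Fin j, N.mkQ (g i.castSucc) ∈ Submodule.span (MvPolynomial σ ℂ)
          (Set.range fun i : Fin j => N.mkQ (g i.castSucc)) :=
        fun i => Submodule.subset_span ⟨i, rfl⟩
      rcases Fin.eq_castSucc_or_eq_last i with ⟨i, rfl⟩ | rfl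
      · exact h2 i
      · have h3 : N.mkQ (g (Fin.last j)) = - ∑ i, a i • N.mkQ (g i.castSucc) := by
          rw [eq_neg_iff_add_eq_zero, ← hmkv, hv, map_add, map_sum]
          simp only [map_smul]
        rw [h3]
        exact Submodule.neg_mem _ (Submodule.sum_mem _ fun i _ => Submodule.smul_mem _ _ (h2 i))
    obtain ⟨g'', ι, hι, hg'', hind, hs''⟩ := ih (M ⧸ N) (quot_tf N hNsat) hrkq j
      (fun i => N.mkQ (g i.castSucc)) hspanq (fun i => e i.castSucc)
      (fun _ _ h => he (Fin.castSucc_le_castSucc_iff.mpr h))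
    choose b hb1 hb2 hb3 using hg''
    let g' : Fin (j + 1) → M := Fin.lastCases v
      (fun i => g i.castSucc + ∑ l, b i l • g l.castSucc)
    have hgl : g' (Fin.last j) = v := Fin.lastCases_last
    have hgc : ∀ i : Fin j, g' i.castSucc = g i.castSucc + ∑ l, b i l • g l.castSucc :=
      fun i => Fin.lastCases_castSucc i
    have hmkg : ∀ i : Fin j, N.mkQ (g' i.castSucc) = g'' i := by
      intro i
      rw [hgc, hb3, map_add, map_sum]
      simp only [map_smul]
    let κ : Fin (k + 1) → Fin (j + 1) := Fin.lastCases (Fin.last j) (fun i => (ι i).castSucc)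
    have hκl : κ (Fin.last k) = Fin.last j := Fin.lastCases_last
    have hκc : ∀ i : Fin k, κ i.castSucc = (ι i).castSucc := fun i => Fin.lastCases_castSucc i
    have hsum : ∀ c : Fin (k + 1) → MvPolynomial σ ℂ, ∑ i, c i • g' (κ i) =
        ∑ i : Fin k, c i.castSucc • g' (ι i).castSucc + c (Fin.last k) • v := by
      intro c
      rw [Fin.sum_univ_castSucc, hκl, hgl]
      congr 1
      refine Finset.sum_congr rfl fun i _ => ?_
      rw [hκc]
    have hmksum : ∀ c : Fin (k + 1) → MvPolynomial σ ℂ, N.mkQ (∑ i, c i • g' (κ i)) =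
        ∑ i : Fin k, c i.castSucc • g'' (ι i) := by
      intro c
      rw [hsum, map_add, map_smul, hmkv, smul_zero, add_zero, map_sum]
      refine Finset.sum_congr rfl fun i _ => ?_
      rw [map_smul, hmkg]
    refine ⟨g', κ, ?_, ?_, ?_, ?_⟩
    · intro i i' h
      rcases Fin.eq_castSucc_or_eq_last i with ⟨i, rfl⟩ | rfl <;>
        rcases Fin.eq_castSucc_or_eq_last i' with ⟨i', rfl⟩ | rfl
      · rw [hκc, hκc] at h
        rw [hι (Fin.castSucc_injective _ h)]
      · rw [hκc, hκl] at h
        exact absurd h (Fin.castSucc_lt_last _).ne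
      · rw [hκc, hκl] at h
        exact absurd h (Fin.castSucc_lt_last _).ne'
      · rfl
    · intro i
      rcases Fin.eq_castSucc_or_eq_last i with ⟨i, rfl⟩ | rfl
      · refine ⟨app (b i) 0, ?_, ?_, ?_⟩
        · intro l
          rcases Fin.eq_castSucc_or_eq_last l with ⟨l, rfl⟩ | rfl
          · rw [app_castSucc]; exact hb1 i l
          · rw [app_last]; exact isHomogeneous_zero _ _ _
        · intro l hl
          rcases Fin.eq_castSucc_or_eq_last l with ⟨l, rfl⟩ | rfl
          · rw [app_castSucc]; exact hb2 i l (Fin.castSucc_le_castSucc_iff.mp hl)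
          · rw [app_last]
        · rw [hgc, Fin.sum_univ_castSucc, app_last, zero_smul, add_zero]
          simp only [app_castSucc]
      · refine ⟨app a 0, ?_, ?_, ?_⟩
        · intro l
          rcases Fin.eq_castSucc_or_eq_last l with ⟨l, rfl⟩ | rfl
          · rw [app_castSucc]; exact ha l
          · rw [app_last]; exact isHomogeneous_zero _ _ _
        · intro l hl
          have : l = Fin.last j := le_antisymm (Fin.le_last l) hl
          rw [this, app_last]
        · rw [hgl, Fin.sum_univ_castSucc, app_last, zero_smul, add_zero, hv]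
          simp only [app_castSucc]
    · intro c hc
      have h1 := hmksum c
      rw [hc, map_zero] at h1
      have h2 := hind (fun i => c i.castSucc) h1.symm
      have h3 : ∀ i : Fin k, c i.castSucc = 0 := fun i => congrFun h2 i
      rw [hsum] at hc
      simp only [h3, zero_smul, Finset.sum_const_zero, zero_add] at hc
      have h4 : c (Fin.last k) = 0 := (htf _ _ hc).resolve_right hne
      funext i
      rcases Fin.eq_castSucc_or_eq_last i with ⟨i, rfl⟩ | rfl
      · exact h3 i
      · exact h4
    · intro s hs m c hc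
      have h1 := hmksum c
      rw [← hc, map_smul] at h1
      obtain ⟨d, hd⟩ := hs'' s hs (N.mkQ m) (fun i => c i.castSucc) h1
      have h2 : N.mkQ (m - ∑ i : Fin k, d i • g' (ι i).castSucc) = 0 := by
        rw [map_sub, hd, map_sum, sub_eq_zero]
        refine Finset.sum_congr rfl fun i _ => ?_
        rw [map_smul, hmkg]
      rw [Submodule.mkQ_apply, Submodule.Quotient.mk_eq_zero] at h2
      obtain ⟨r, hr'⟩ := Submodule.mem_span_singleton.mp h2
      refine ⟨app d r, ?_⟩
      rw [hsum, app_last]
      simp only [app_castSucc]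
      rw [hr']
      abel

end Pool.Agent.Q41.TM
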