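import Pool.Agent.Q41.TM.Defs
import Pool.Agent.Q41.TM.Many

/-!
# Homogeneous generators of the module of Jacobian syzygies
-/

namespace Pool.Agent.Q41.TM

open MvPolynomial

theorem hc_mul {σ : Type*} (a φ : MvPolynomial σ ℂ) (d e : ℕ) (hφ : φ.IsHomogeneous d) :
    homogeneousComponent (e + d) (a * φ) = homogeneousComponent e a * φ := by
  have h1 : ∀ i, homogeneousComponent (e + d) (homogeneousComponent i a * φ) =
      if i = e then homogeneousComponent e a * φ else 0 := by
    intro i
    have h2 : homogeneousComponent i a * φ ∈ homogeneousSubmodule σ ℂ (i + d) :=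
      (homogeneousComponent_isHomogeneous i a).mul hφ
    rw [homogeneousComponent_of_mem h2]
    by_cases h : i = e
    · rw [if_pos h, if_pos (by rw [h]), h]
    · rw [if_neg h, if_neg (by omega)]
  conv_lhs => rw [← sum_homogeneousComponent a, Finset.sum_mul, map_sum]
  rw [Finset.sum_congr rfl fun i _ => h1 i, Finset.sum_ite_eq']
  split_ifs with h
  · rfl
  · rw [Finset.mem_range, not_lt] at h
    rw [homogeneousComponent_eq_zero _ _ (by omega), zero_mul]

theorem comp_mem {k d : ℕ} {f : MvPolynomial (Fin (k + 2)) ℂ} (hf : f.IsHomogeneous d)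
    (a : Fin (k + 2) → MvPolynomial (Fin (k + 2)) ℂ) (ha : a ∈ D0 f) (e : ℕ) :
    (fun j => homogeneousComponent e (a j)) ∈ D0 f := by
  have h1 : ∑ j, a j * pderiv j f = 0 := ha
  have h2 := congrArg (homogeneousComponent (e + (d - 1))) h1
  rw [map_sum, map_zero] at h2
  change ∑ j, homogeneousComponent e (a j) * pderiv j f = 0
  rw [← h2]
  refine Finset.sum_congr rfl fun j _ => ?_
  rw [hc_mul _ _ _ _ hf.pderiv]

theorem exists_gens {k d : ℕ} {f : MvPolynomial (Fin (k + 2)) ℂ} (hf : f.IsHomogeneous d) :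
    ∃ (m : ℕ) (r : Fin m → Fin (k + 2) → MvPolynomial (Fin (k + 2)) ℂ), IsGens f m r := by
  classical
  obtain ⟨G, hG⟩ := IsNoetherian.noetherian (D0 f)
  -- a bound for the degrees
  let N : ℕ := G.sup fun g => Finset.univ.sup fun j => (g j).totalDegree
  let T : Finset (Fin (k + 2) → MvPolynomial (Fin (k + 2)) ℂ) :=
    (G ×ˢ Finset.range (N + 1)).image fun p => fun j => homogeneousComponent p.2 (p.1 j)
  have hGmem : ∀ g ∈ G, g ∈ D0 f := by
    intro g hg
    rw [← hG]
    exact Submodule.subset_span hg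
  have hT : Submodule.span (MvPolynomial (Fin (k + 2)) ℂ) (T : Set _) = D0 f := by
    apply le_antisymm
    · rw [Submodule.span_le]
      intro t ht
      obtain ⟨p, hp, rfl⟩ := Finset.mem_image.mp (Finset.mem_coe.mp ht)
      exact comp_mem hf p.1 (hGmem p.1 (Finset.mem_product.mp hp).1) p.2
    · rw [← hG, Submodule.span_le]
      intro g hg
      have h1 : g = ∑ e ∈ Finset.range (N + 1), fun j => homogeneousComponent e (g j) := by
        funext j
        rw [Finset.sum_apply]
        have h2 : (g j).totalDegree ≤ N :=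
          (Finset.le_sup (f := fun j => (g j).totalDegree) (Finset.mem_univ j)).trans
            (Finset.le_sup (f := fun g : Fin (k + 2) → MvPolynomial (Fin (k + 2)) ℂ =>
              Finset.univ.sup fun j => (g j).totalDegree) hg)
        conv_lhs => rw [← sum_homogeneousComponent (g j)]
        refine Finset.sum_subset ?_ ?_
        · intro x hx
          rw [Finset.mem_range] at hx ⊢
          omega
        · intro x _ hx
          rw [Finset.mem_range, not_lt] at hx
          exact homogeneousComponent_eq_zero _ _ (by omega)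
      rw [SetLike.mem_coe, h1]
      refine Submodule.sum_mem _ fun e he => Submodule.subset_span ?_
      exact Finset.mem_coe.mpr (Finset.mem_image.mpr ⟨(g, e), Finset.mem_product.mpr ⟨hg, he⟩, rfl⟩)
  refine ⟨T.card, fun i => (T.equivFin.symm i).1, ?_, ?_⟩
  · intro i
    obtain ⟨p, -, hp⟩ := Finset.mem_image.mp (T.equivFin.symm i).2
    refine ⟨p.2, fun j => ?_⟩
    have h1 := congrFun hp j
    simp only at h1 ⊢
    rw [← h1]
    exact homogeneousComponent_isHomogeneous _ _
  · rw [← hT]
    congr 1
    ext t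
    constructor
    · rintro ⟨i, rfl⟩
      exact (T.equivFin.symm i).2
    · intro ht
      exact ⟨T.equivFin ⟨t, ht⟩, by simp⟩

theorem exists_minGens {k d : ℕ} {f : MvPolynomial (Fin (k + 2)) ℂ} (hf : f.IsHomogeneous d) :
    ∃ (m : ℕ) (r : Fin m → Fin (k + 2) → MvPolynomial (Fin (k + 2)) ℂ), IsMinGens f m r := by
  classical
  have h := exists_gens hf
  obtain ⟨r, hr⟩ := Nat.find_spec h
  exact ⟨Nat.find h, r, hr, fun m' r' h' => Nat.find_min' h ⟨r', h'⟩⟩

theorem finrank_D0 {k : ℕ} (f : MvPolynomial (Fin (k + 2)) ℂ) :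
    k + 1 ≤ Module.finrank (MvPolynomial (Fin (k + 2)) ℂ) (D0 f) := by
  let φ : (Fin (k + 2) → MvPolynomial (Fin (k + 2)) ℂ) →ₗ[MvPolynomial (Fin (k + 2)) ℂ]
      MvPolynomial (Fin (k + 2)) ℂ :=
    { toFun := fun a => ∑ j, a j * pderiv j f
      map_add' := by
        intro a b
        simp only [Pi.add_apply, add_mul, Finset.sum_add_distrib]
      map_smul' := by
        intro c a
        simp only [Pi.smul_apply, smul_eq_mul, mul_assoc, ← Finset.mul_sum, RingHom.id_apply] }
  have hker : LinearMap.ker φ = D0 f := rfl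
  have h1 := Submodule.finrank_quotient_add_finrank (D0 f)
  have h2 : Module.finrank (MvPolynomial (Fin (k + 2)) ℂ)
      ((Fin (k + 2) → MvPolynomial (Fin (k + 2)) ℂ) ⧸ D0 f) ≤ 1 := by
    rw [← hker, (LinearMap.quotKerEquivRange φ).finrank_eq]
    refine (Submodule.finrank_le _).trans ?_
    rw [Module.finrank_self]
  rw [Module.finrank_fin_fun] at h1
  omega

theorem tf_D0 {k : ℕ} (f : MvPolynomial (Fin (k + 2)) ℂ) (s : MvPolynomial (Fin (k + 2)) ℂ)
    (m : D0 f) (h : s • m = 0) : s = 0 ∨ m = 0 := by
  by_cases hs : s = 0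
  · exact Or.inl hs
  · right
    apply Subtype.ext
    funext j
    have h1 := congrFun (congrArg Subtype.val h) j
    simp only [Submodule.coe_smul, Pi.smul_apply, smul_eq_mul, ZeroMemClass.coe_zero,
      Pi.zero_apply, mul_eq_zero] at h1
    exact h1.resolve_left hs

end Pool.Agent.Q41.TM
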