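import Pool.Agent.Q41.TM.Gens

/-!
# Every hypersurface is tame
-/

namespace Pool.Agent.Q41.TM

open MvPolynomial

theorem span_new {S M : Type*} [CommRing S] [AddCommGroup M] [Module S M] {m : ℕ}
    (g g' : Fin m → M)
    (h : ∀ i, ∃ a : Fin m → S, (∀ l, i ≤ l → a l = 0) ∧ g' i = g i + ∑ l, a l • g l) :
    Submodule.span S (Set.range g) ≤ Submodule.span S (Set.range g') := by
  rw [Submodule.span_le]
  have key : ∀ (N : ℕ) (i : Fin m), i.val = N → g i ∈ Submodule.span S (Set.range g') := by
    intro N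
    induction N using Nat.strong_induction_on with
    | _ N ih =>
      intro i hi
      obtain ⟨a, ha, hg⟩ := h i
      have h1 : g i = g' i - ∑ l, a l • g l := by rw [hg]; abel
      rw [h1]
      refine Submodule.sub_mem _ (Submodule.subset_span ⟨i, rfl⟩) (Submodule.sum_mem _ ?_)
      intro l _
      by_cases hl : i ≤ l
      · rw [ha l hl, zero_smul]; exact Submodule.zero_mem _
      · refine Submodule.smul_mem _ _ (ih l.val ?_ l rfl)
        rw [not_le, Fin.lt_def] at hl
        omega
  rintro _ ⟨i, rfl⟩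
  exact key _ i rfl

/-- the kernel condition -/
theorem tame_of_sat {k d : ℕ} (f : MvPolynomial (Fin (k + 2)) ℂ) (hf : f.IsHomogeneous d)
    (hd : d ≠ 0) (hf0 : f ≠ 0) (r : Fin k → Fin (k + 2) → MvPolynomial (Fin (k + 2)) ℂ)
    (hr : ∀ i, r i ∈ D0 f)
    (hind : ∀ a : Fin k → MvPolynomial (Fin (k + 2)) ℂ, ∑ i, a i • r i = 0 → a = 0)
    (hsat : ∀ s : MvPolynomial (Fin (k + 2)) ℂ, s ≠ 0 → ∀ m ∈ D0 f,
      ∀ a : Fin k → MvPolynomial (Fin (k + 2)) ℂ, s • m = ∑ i, a i • r i →
        ∃ b : Fin k → MvPolynomial (Fin (k + 2)) ℂ, m = ∑ i, b i • r i) :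
    Tame f r := by
  constructor
  · intro a b hab
    simp only at hab
    have h1 : ∑ i, (a - b) i • r i = 0 := by
      simp only [Pi.sub_apply, sub_smul, Finset.sum_sub_distrib]
      rw [hab, sub_self]
    exact sub_eq_zero.mp (hind _ h1)
  · intro s hs
    have hrow : ∀ c : Fin (k + 2) → MvPolynomial (Fin (k + 2)) ℂ,
        Matrix.vecMul c (MM r s) = c 0 • (fun j => (X j : MvPolynomial (Fin (k + 2)) ℂ)) +
          (∑ i : Fin k, c i.castSucc.succ • r i + c (Fin.last (k + 1)) • s) := by
      intro c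
      funext j
      have h1 : Matrix.vecMul c (MM r s) j = ∑ i, c i * MM r s i j := rfl
      rw [h1, Fin.sum_univ_succ, Fin.sum_univ_castSucc]
      simp only [MM, Matrix.of_apply, Fin.cons_zero, Fin.cons_succ, Fin.snoc_castSucc,
        Fin.snoc_last, Pi.add_apply, Pi.smul_apply, smul_eq_mul, Finset.sum_apply]
      rfl
    rw [← Matrix.exists_vecMul_eq_zero_iff]
    constructor
    · rintro ⟨c, hc, h0⟩
      rw [hrow] at h0
      -- apply the functional given by the partial derivatives
      have hD : ∀ a ∈ D0 f, ∑ j, a j * pderiv j f = 0 := fun a ha => ha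
      have hm : (∑ i : Fin k, c i.castSucc.succ • r i + c (Fin.last (k + 1)) • s) ∈ D0 f :=
        Submodule.add_mem _ (Submodule.sum_mem _ fun i _ => Submodule.smul_mem _ _ (hr i))
          (Submodule.smul_mem _ _ hs)
      have h1 : c 0 * ((d : MvPolynomial (Fin (k + 2)) ℂ) * f) = 0 := by
        have h2 := hD _ hm
        have h3 : ∑ j, (c 0 • (fun j => (X j : MvPolynomial (Fin (k + 2)) ℂ)) +
          (∑ i : Fin k, c i.castSucc.succ • r i + c (Fin.last (k + 1)) • s)) j *
            pderiv j f = 0 := by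
          rw [h0]; simp
        simp only [Pi.add_apply (c 0 • fun j => (X j : MvPolynomial (Fin (k + 2)) ℂ)), add_mul,
          Finset.sum_add_distrib] at h3
        rw [h2, add_zero] at h3
        simp only [Pi.smul_apply, smul_eq_mul, mul_assoc, ← Finset.mul_sum] at h3
        rw [hf.sum_X_mul_pderiv, nsmul_eq_mul] at h3
        exact h3
      have h4 : c 0 = 0 := by
        rcases mul_eq_zero.mp h1 with h | h
        · exact h
        · rcases mul_eq_zero.mp h with h | h
          · exact absurd (by exact_mod_cast h) hd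
          · exact absurd h hf0
      rw [h4, zero_smul, zero_add] at h0
      have h5 : c (Fin.last (k + 1)) ≠ 0 := by
        intro h5
        rw [h5, zero_smul, add_zero] at h0
        have h6 := hind (fun i => c i.castSucc.succ) h0
        apply hc
        funext i
        refine Fin.cases h4 (fun i => ?_) i
        rcases Fin.eq_castSucc_or_eq_last i with ⟨i, rfl⟩ | rfl
        · exact congrFun h6 i
        · exact h5
      refine hsat _ h5 s hs (fun i => - c i.castSucc.succ) ?_
      simp only [neg_smul, Finset.sum_neg_distrib]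
      exact eq_neg_of_add_eq_zero_right h0
    · rintro ⟨a, rfl⟩
      refine ⟨Fin.cons 0 (Fin.snoc a (-1)), ?_, ?_⟩
      · intro h
        have h1 := congrFun h (Fin.last (k + 1))
        rw [← Fin.succ_last, Fin.cons_succ, Fin.snoc_last] at h1
        simp at h1
      · rw [hrow]
        simp only [Fin.cons_zero, zero_smul, zero_add, Fin.cons_succ, Fin.snoc_castSucc]
        rw [← Fin.succ_last, Fin.cons_succ, Fin.snoc_last, neg_smul, one_smul, add_neg_cancel]

theorem main {k d : ℕ} (f : MvPolynomial (Fin (k + 2)) ℂ) (hf : f.IsHomogeneous d)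
    (hd : d ≠ 0) (hf0 : f ≠ 0) :
    ∃ (m : ℕ) (r : Fin m → Fin (k + 2) → MvPolynomial (Fin (k + 2)) ℂ), IsMinGens f m r ∧
      ∃ ι : Fin k → Fin m, Function.Injective ι ∧ Tame f (r ∘ ι) := by
  obtain ⟨m, r0, hr0⟩ := exists_minGens hf
  choose e0 he0 using hr0.1.1
  -- sort by the degrees
  let σ := Tuple.sort e0
  let r : Fin m → Fin (k + 2) → MvPolynomial (Fin (k + 2)) ℂ := r0 ∘ σ
  let e : Fin m → ℕ := e0 ∘ σ
  have he : Monotone e := Tuple.monotone_sort e0
  have hre : ∀ i, IsHom (r i) (e i) := fun i => he0 (σ i)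
  have hrange : Set.range r = Set.range r0 := by
    simp only [r]
    exact σ.surjective.range_comp r0
  have hspan : Submodule.span (MvPolynomial (Fin (k + 2)) ℂ) (Set.range r) = D0 f := by
    rw [hrange, hr0.1.2]
  have hmem : ∀ i, r i ∈ D0 f := fun i => by
    rw [← hspan]; exact Submodule.subset_span ⟨i, rfl⟩
  let g : Fin m → D0 f := fun i => ⟨r i, hmem i⟩
  have hg : Submodule.span (MvPolynomial (Fin (k + 2)) ℂ) (Set.range g) = ⊤ := by
    apply Submodule.map_injective_of_injective (f := (D0 f).subtype) Subtype.val_injective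
    rw [Submodule.map_span, Submodule.map_top, Submodule.range_subtype]
    refine Eq.trans ?_ hspan
    congr 1
    ext t
    constructor
    · rintro ⟨_, ⟨i, rfl⟩, rfl⟩
      exact ⟨i, rfl⟩
    · rintro ⟨i, rfl⟩
      exact ⟨g i, ⟨i, rfl⟩, rfl⟩
  have h01 : (0 : Fin (k + 2)) ≠ 1 := by simp
  obtain ⟨g', ι, hι, hg', hind, hsat⟩ := many (0 : Fin (k + 2)) 1 h01 k (D0 f) (tf_D0 f)
    (finrank_D0 f) m g hg e he
  have hr' : ∀ i, IsHom ((g' i : D0 f) : Fin (k + 2) → MvPolynomial (Fin (k + 2)) ℂ) (e i) := by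
    intro i j
    obtain ⟨a, ha1, ha2, ha3⟩ := hg' i
    rw [ha3]
    have h1 : ((g i + ∑ l, a l • g l : D0 f) : Fin (k + 2) → MvPolynomial (Fin (k + 2)) ℂ) j =
        r i j + ∑ l, a l * r l j := by
      simp [g]
    rw [h1]
    refine (hre i j).add (IsHomogeneous.sum _ _ _ fun l _ => ?_)
    by_cases hl : i ≤ l
    · rw [ha2 l hl, zero_mul]; exact isHomogeneous_zero _ _ _
    · have h2 := (ha1 l).mul (hre l j)
      rwa [Nat.sub_add_cancel (he (le_of_lt (not_le.mp hl)))] at h2
  refine ⟨m, fun i => ((g' i : D0 f) : Fin (k + 2) → MvPolynomial (Fin (k + 2)) ℂ),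
    ⟨⟨fun i => ⟨e i, hr' i⟩, ?_⟩, hr0.2⟩, ι, hι, ?_⟩
  · apply le_antisymm
    · rw [Submodule.span_le]
      rintro _ ⟨i, rfl⟩
      exact (g' i).2
    · refine hspan.symm.le.trans (span_new _ _ fun i => ?_)
      obtain ⟨a, ha1, ha2, ha3⟩ := hg' i
      refine ⟨a, ha2, ?_⟩
      simp only [ha3]
      funext j
      simp [g]
  · apply tame_of_sat f hf hd hf0
    · intro i; exact (g' (ι i)).2
    · intro a ha
      apply hind
      apply Subtype.ext
      rw [← ZeroMemClass.coe_zero (D0 f)] at ha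
      rw [← ha]
      simp
    · intro s hs t ht a hta
      obtain ⟨b, hb⟩ := hsat s hs ⟨t, ht⟩ a (by
        apply Subtype.ext
        rw [Submodule.coe_smul, hta]
        simp)
      refine ⟨b, ?_⟩
      have h1 := congrArg Subtype.val hb
      refine h1.trans ?_
      simp

end Pool.Agent.Q41.TM
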