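import Pool.Agent.Q41.TM.Sat

/-!
# A graded Bertini statement for one vector
-/

namespace Pool.Agent.Q41.TM

open MvPolynomial

theorem avoid {V : Type*} [AddCommGroup V] [Module ℂ V] (s : Finset (Submodule ℂ V))
    (hs : ∀ W ∈ s, W ≠ ⊤) : ∃ v : V, ∀ W ∈ s, v ∉ W := by
  have h := Subspace.biUnion_ne_univ_of_top_notMem (k := ℂ) (s := s) (fun h => hs _ h rfl)
  obtain ⟨v, hv⟩ := (Set.ne_univ_iff_exists_notMem _).mp h
  refine ⟨v, fun W hW hv' => hv ?_⟩
  exact Set.mem_biUnion hW hv'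

theorem exists_lin {σ : Type*} (a b : σ) (hab : a ≠ b) (Q : Finset (MvPolynomial σ ℂ))
    (hQ : ∀ q ∈ Q, Prime q) : ∃ c : ℂ, ∀ q ∈ Q, ¬ q ∣ ((X a : MvPolynomial σ ℂ) + C c * X b) := by
  by_contra hcon
  push Not at hcon
  choose f hf using hcon
  obtain ⟨c, c', hne, heq⟩ := Finite.exists_ne_map_eq_of_infinite
    (fun c : ℂ => (⟨f c, (hf c).1⟩ : {q // q ∈ Q}))
  have heq' : f c = f c' := congrArg Subtype.val heq
  have hp := hQ _ (hf c).1
  have h1 := (hf c).2
  have h2 := (hf c').2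
  rw [← heq'] at h2
  have h3 : f c ∣ C (c - c') * X b := by
    have := dvd_sub h1 h2
    rw [map_sub]
    convert this using 1
    ring
  have h4 : f c ∣ X b := by
    rcases hp.dvd_or_dvd h3 with h | h
    · exfalso
      apply hp.not_isUnit
      refine isUnit_of_dvd_unit h ?_
      exact (isUnit_iff_ne_zero.mpr (sub_ne_zero.mpr hne)).map C
    · exact h
  have h5 : f c ∣ X a := by
    have := dvd_sub h1 (Dvd.dvd.mul_left h4 (C c))
    simpa using this
  have h6 : X b ∣ f c := (hp.irreducible.dvd_comm (X_prime (R := ℂ)).irreducible).mp h4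
  have h7 : (X b : MvPolynomial σ ℂ) ∣ X a := dvd_trans h6 h5
  exact hab (X_dvd_X.mp h7).symm

theorem lin_hom {σ : Type*} (a b : σ) (c t : ℂ) (d : ℕ) :
    (C t * ((X a : MvPolynomial σ ℂ) + C c * X b) ^ d).IsHomogeneous d := by
  have h1 : ((X a : MvPolynomial σ ℂ) + C c * X b).IsHomogeneous 1 := by
    refine (isHomogeneous_X ℂ a).add ?_
    simpa using (isHomogeneous_C σ c).mul (isHomogeneous_X ℂ b)
  simpa using (isHomogeneous_C σ t).mul (h1.pow d)

theorem lin_ne {σ : Type*} (a b : σ) (hab : a ≠ b) (c : ℂ) :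
    ((X a : MvPolynomial σ ℂ) + C c * X b) ≠ 0 := by
  intro h
  have h1 : coeff (Finsupp.single a 1) ((X a : MvPolynomial σ ℂ) + C c * X b) = 0 := by
    rw [h, coeff_zero]
  classical
  rw [coeff_add, coeff_X, coeff_C_mul, coeff_X] at h1
  have : (Finsupp.single b 1 : σ →₀ ℕ) ≠ Finsupp.single a 1 := by
    intro h2
    exact hab (Finsupp.single_left_injective one_ne_zero h2).symm
  rw [if_neg this] at h1
  simp at h1

set_option linter.unusedSectionVars false

variable {σ : Type*} {M : Type*} [AddCommGroup M] [Module (MvPolynomial σ ℂ) M]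

/-- pull back of a submodule along a family of vectors -/
def pull {J : ℕ} (w : Fin J → M) (W : Submodule (MvPolynomial σ ℂ) M) :
    Submodule ℂ (Fin J → ℂ) where
  carrier := {l | ∑ i, (C (l i) : MvPolynomial σ ℂ) • w i ∈ W}
  add_mem' := by
    intro a b ha hb
    simp only [Set.mem_ofPred_eq] at ha hb ⊢
    have : ∑ i, (C ((a + b) i) : MvPolynomial σ ℂ) • w i =
        ∑ i, (C (a i) : MvPolynomial σ ℂ) • w i + ∑ i, (C (b i) : MvPolynomial σ ℂ) • w i := by
      rw [← Finset.sum_add_distrib]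
      refine Finset.sum_congr rfl fun i _ => ?_
      rw [Pi.add_apply, map_add, add_smul]
    rw [this]
    exact W.add_mem ha hb
  zero_mem' := by simp
  smul_mem' := by
    intro c a ha
    simp only [Set.mem_ofPred_eq] at ha ⊢
    have : ∑ i, (C ((c • a) i) : MvPolynomial σ ℂ) • w i =
        (C c : MvPolynomial σ ℂ) • ∑ i, (C (a i) : MvPolynomial σ ℂ) • w i := by
      rw [Finset.smul_sum]
      refine Finset.sum_congr rfl fun i _ => ?_
      rw [Pi.smul_apply, smul_eq_mul, map_mul, mul_smul]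
    rw [this]
    exact W.smul_mem _ ha

theorem mem_pull {J : ℕ} (w : Fin J → M) (W : Submodule (MvPolynomial σ ℂ) M) (l : Fin J → ℂ) :
    l ∈ pull w W ↔ ∑ i, (C (l i) : MvPolynomial σ ℂ) • w i ∈ W := Iff.rfl

theorem pull_ne_top {J : ℕ} (w : Fin J → M) (W : Submodule (MvPolynomial σ ℂ) M) (i : Fin J)
    (hi : w i ∉ W) : pull w W ≠ ⊤ := by
  intro h
  apply hi
  have h1 : (Pi.single i 1 : Fin J → ℂ) ∈ pull w W := by rw [h]; exact Submodule.mem_top
  rw [mem_pull, Finset.sum_eq_single i] at h1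
  · simpa using h1
  · intro j _ hj
    rw [Pi.single_eq_of_ne hj, map_zero, zero_smul]
  · intro h; exact absurd (Finset.mem_univ _) h

theorem one_vector (x y : σ) (hxy : x ≠ y) [Module.Finite (MvPolynomial σ ℂ) M]
    (htf : ∀ (s : MvPolynomial σ ℂ) (m : M), s • m = 0 → s = 0 ∨ m = 0)
    (hr : ∀ v : M, ∃ m : M, ∀ s : MvPolynomial σ ℂ, s ≠ 0 →
      s • m ∉ Submodule.span (MvPolynomial σ ℂ) {v})
    {j : ℕ} (g : Fin (j + 1) → M)
    (hg : Submodule.span (MvPolynomial σ ℂ) (Set.range g) = ⊤) (δ : Fin j → ℕ) :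
    ∃ a : Fin j → MvPolynomial σ ℂ, (∀ i, (a i).IsHomogeneous (δ i)) ∧
      (g (Fin.last j) + ∑ i, a i • g i.castSucc) ≠ 0 ∧
      ∀ s : MvPolynomial σ ℂ, s ≠ 0 → ∀ (m : M) (c : MvPolynomial σ ℂ),
        s • m = c • (g (Fin.last j) + ∑ i, a i • g i.castSucc) →
        ∃ c' : MvPolynomial σ ℂ, m = c' • (g (Fin.last j) + ∑ i, a i • g i.castSucc) := by
  classical
  -- not all generators lie in a proper submodule
  have hgen : ∀ W : Submodule (MvPolynomial σ ℂ) M, (∃ m, m ∉ W) → ∃ i, g i ∉ W := by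
    rintro W ⟨m, hm⟩
    by_contra hcon
    push Not at hcon
    apply hm
    have : (⊤ : Submodule (MvPolynomial σ ℂ) M) ≤ W := by
      rw [← hg, Submodule.span_le]
      rintro _ ⟨i, rfl⟩
      exact hcon i
    exact this Submodule.mem_top
  have hr' : ∀ v : M, ∃ m, m ∉ satur (Submodule.span (MvPolynomial σ ℂ) {v}) := by
    intro v
    obtain ⟨m, hm⟩ := hr v
    refine ⟨m, ?_⟩
    rintro ⟨s, hs, h⟩
    exact hm s hs h
  obtain ⟨i1, hi1⟩ := hgen _ (hr' (g (Fin.last j)))
  obtain ⟨i0, rfl⟩ : ∃ i : Fin j, i.castSucc = i1 := by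
    rcases Fin.eq_castSucc_or_eq_last i1 with ⟨i, rfl⟩ | rfl
    · exact ⟨i, rfl⟩
    · exact absurd (le_satur _ (Submodule.mem_span_singleton_self _)) hi1
  set w0 := g i0.castSucc with hw0
  have hw0ne : w0 ≠ 0 := by
    intro h
    rw [h] at hi1
    exact hi1 (Submodule.zero_mem _)
  obtain ⟨ψ, hψ⟩ := exists_dual htf w0 hw0ne
  set Q0 : Finset (MvPolynomial σ ℂ) :=
    (UniqueFactorizationMonoid.factors (ψ w0)).toFinset with hQ0
  have hQ0p : ∀ q ∈ Q0, Prime q := fun q hq =>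
    UniqueFactorizationMonoid.prime_of_factor q (Multiset.mem_toFinset.mp hq)
  obtain ⟨c1, hc1⟩ := exists_lin x y hxy Q0 hQ0p
  set l1 : MvPolynomial σ ℂ := X x + C c1 * X y with hl1
  have hl1ne : l1 ≠ 0 := lin_ne x y hxy c1
  let w : Fin (j + 1) → M := Fin.lastCases (g (Fin.last j))
    (fun i => if i = i0 then 0 else l1 ^ (δ i) • g i.castSucc)
  have hwl : w (Fin.last j) = g (Fin.last j) := Fin.lastCases_last
  have hwc : ∀ i : Fin j, w i.castSucc = if i = i0 then 0 else l1 ^ (δ i) • g i.castSucc :=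
    fun i => Fin.lastCases_castSucc i
  -- the submodules to avoid
  set T : Submodule (MvPolynomial σ ℂ) M := satur (Submodule.span (MvPolynomial σ ℂ) {w0}) with hT
  have hw0T : w0 ∈ T := le_satur _ (Submodule.mem_span_singleton_self _)
  have hproper : ∀ W : Submodule (MvPolynomial σ ℂ) M, w0 ∈ W → (∃ m, m ∉ W) →
      (∀ (d : ℕ) (m : M), l1 ^ d • m ∈ W → m ∈ W) → pull w W ≠ ⊤ := by
    intro W hW hm hs
    obtain ⟨i, hi⟩ := hgen W hm
    apply pull_ne_top w W i
    rcases Fin.eq_castSucc_or_eq_last i with ⟨i, rfl⟩ | rfl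
    · rw [hwc]
      have hne : i ≠ i0 := by
        rintro rfl
        exact hi hW
      rw [if_neg hne]
      exact fun h => hi (hs _ _ h)
    · rw [hwl]; exact hi
  let F : Finset (Submodule ℂ (Fin (j + 1) → ℂ)) :=
    insert (LinearMap.ker (LinearMap.proj (R := ℂ) (φ := fun _ : Fin (j + 1) => ℂ) (Fin.last j)))
      (insert (pull w T) ((Q0.filter fun q => Bad q w0).attach.image fun q =>
        pull w (badSub M q.1 (hQ0p q.1 (Finset.mem_filter.mp q.2).1))))
  obtain ⟨lam, hlam⟩ := avoid F (by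
    intro W hW
    simp only [F, Finset.mem_insert, Finset.mem_image] at hW
    rcases hW with rfl | rfl | ⟨q, -, rfl⟩
    · intro h
      have h1 : (Pi.single (Fin.last j) 1 : Fin (j + 1) → ℂ) ∈
          LinearMap.ker (LinearMap.proj (R := ℂ) (φ := fun _ : Fin (j + 1) => ℂ)
            (Fin.last j)) := by rw [h]; exact Submodule.mem_top
      simp at h1
    · refine hproper T hw0T (hr' w0) ?_
      intro d m hm
      exact satur_sat _ _ (pow_ne_zero _ hl1ne) m hm
    · have hq := Finset.mem_filter.mp q.2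
      refine hproper _ hq.2 ?_ ?_
      · exact exists_not_bad htf w0 hw0ne q.1 (hQ0p q.1 hq.1)
      · intro d m hm
        exact Bad.of_smul (hQ0p q.1 hq.1) (fun h => hc1 q.1 hq.1
          ((hQ0p q.1 hq.1).dvd_of_dvd_pow h)) hm)
  have hmu : lam (Fin.last j) ≠ 0 := by
    have := hlam _ (Finset.mem_insert_self _ _)
    rwa [LinearMap.mem_ker, LinearMap.proj_apply] at this
  have hHT : ∑ i, (C (lam i) : MvPolynomial σ ℂ) • w i ∉ T := by
    have := hlam (pull w T) (Finset.mem_insert_of_mem (Finset.mem_insert_self _ _))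
    rwa [mem_pull] at this
  have hHQ : ∀ q ∈ Q0, Bad q w0 → ¬ Bad q (∑ i, (C (lam i) : MvPolynomial σ ℂ) • w i) := by
    intro q hq hb hbad
    have hmem : q ∈ Q0.filter fun q => Bad q w0 := Finset.mem_filter.mpr ⟨hq, hb⟩
    have := hlam (pull w (badSub M q (hQ0p q hq))) (Finset.mem_insert_of_mem
      (Finset.mem_insert_of_mem (Finset.mem_image.mpr ⟨⟨q, hmem⟩, Finset.mem_attach _ _, rfl⟩)))
    exact this hbad
  set H := ∑ i, (C (lam i) : MvPolynomial σ ℂ) • w i with hH
  set μ := lam (Fin.last j) with hμ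
  set h : M := (C (μ⁻¹) : MvPolynomial σ ℂ) • H with hh
  have hHh : (C μ : MvPolynomial σ ℂ) • h = H := by
    rw [hh, smul_smul, ← map_mul, mul_inv_cancel₀ hmu, map_one, one_smul]
  have hhT : h ∉ T := by
    intro hm
    apply hHT
    rw [← hHh]
    exact T.smul_mem _ hm
  have hhQ : ∀ q ∈ Q0, Bad q w0 → ¬ Bad q h := by
    intro q hq hb hbad
    apply hHQ q hq hb
    rw [← hHh]
    exact Bad.smul _ hbad
  have hhsum : h = g (Fin.last j) + ∑ i : Fin j, (if i = i0 then 0 else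
      (C (μ⁻¹ * lam i.castSucc) : MvPolynomial σ ℂ) * l1 ^ (δ i)) • g i.castSucc := by
    rw [hh, hH, Fin.sum_univ_castSucc, smul_add, add_comm, Finset.smul_sum, hwl]
    congr 1
    · rw [smul_smul, ← map_mul, inv_mul_cancel₀ hmu, map_one, one_smul]
    · refine Finset.sum_congr rfl fun i _ => ?_
      rw [hwc]
      split_ifs
      · simp
      · rw [smul_smul, smul_smul, ← map_mul]
  -- second step
  obtain ⟨φ, hφ, hφ0⟩ := exists_dual_quot T (satur_sat _) h hhT
  set Q1 : Finset (MvPolynomial σ ℂ) :=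
    (UniqueFactorizationMonoid.factors (φ h)).toFinset with hQ1
  have hQ1p : ∀ q ∈ Q1, Prime q := fun q hq =>
    UniqueFactorizationMonoid.prime_of_factor q (Multiset.mem_toFinset.mp hq)
  obtain ⟨c2, hc2⟩ := exists_lin x y hxy Q1 hQ1p
  set l2 : MvPolynomial σ ℂ := X x + C c2 * X y with hl2
  let G : ℂ → M := fun t => h + (C t * l2 ^ (δ i0)) • w0
  have hsub : ∀ q ∈ Q1, {t : ℂ | Bad q (G t)}.Subsingleton := by
    intro q hq t ht t' ht'
    by_contra hne
    have hp := hQ1p q hq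
    have h1 : Bad q ((C (t - t') * l2 ^ (δ i0)) • w0) := by
      have := Bad.sub hp ht ht'
      have h2 : G t - G t' = (C (t - t') * l2 ^ (δ i0)) • w0 := by
        simp only [G]
        rw [map_sub, sub_mul, sub_smul]
        abel
      rwa [h2] at this
    have h2 : Bad q w0 := by
      refine Bad.of_smul hp ?_ h1
      intro h3
      rcases hp.dvd_or_dvd h3 with h4 | h4
      · apply hp.not_isUnit
        exact isUnit_of_dvd_unit h4 ((isUnit_iff_ne_zero.mpr (sub_ne_zero.mpr hne)).map C)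
      · exact hc2 q hq (hp.dvd_of_dvd_pow h4)
    have h3 : q ∣ ψ w0 := Bad.dvd hp h2 ψ
    obtain ⟨q', hq', hass⟩ := UniqueFactorizationMonoid.exists_mem_factors_of_dvd hψ
      hp.irreducible h3
    have hq'0 : q' ∈ Q0 := Multiset.mem_toFinset.mpr hq'
    apply hhQ q' hq'0 (Bad.assoc hass h2)
    refine Bad.assoc hass ?_
    have h4 := Bad.sub hp ht (Bad.smul (C t * l2 ^ (δ i0)) h2)
    have h5 : G t - (C t * l2 ^ (δ i0)) • w0 = h := by simp only [G]; abel
    rwa [h5] at h4
  obtain ⟨t, ht⟩ : ∃ t : ℂ, ∀ q ∈ Q1, ¬ Bad q (G t) := by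
    have hfin : (⋃ q ∈ Q1, {t : ℂ | Bad q (G t)}).Finite :=
      Set.Finite.biUnion (Finset.finite_toSet Q1) fun q hq => (hsub q hq).finite
    obtain ⟨t, ht⟩ := hfin.exists_notMem
    refine ⟨t, fun q hq hb => ht ?_⟩
    exact Set.mem_biUnion hq hb
  have hbad : ∀ p : MvPolynomial σ ℂ, Prime p → ¬ Bad p (G t) := by
    intro p hp hb
    have h1 : p ∣ φ (G t) := Bad.dvd hp hb φ
    have h2 : φ (G t) = φ h := by
      have h3 : φ ((C t * l2 ^ (δ i0)) • w0) = 0 := by
        rw [map_smul, hφ0 w0 hw0T, smul_zero]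
      simp only [G]
      rw [map_add, h3, add_zero]
    rw [h2] at h1
    obtain ⟨q, hq, hass⟩ := UniqueFactorizationMonoid.exists_mem_factors_of_dvd hφ
      hp.irreducible h1
    exact ht q (Multiset.mem_toFinset.mpr hq) (Bad.assoc hass hb)
  let a : Fin j → MvPolynomial σ ℂ := fun i =>
    if i = i0 then C t * l2 ^ (δ i) else C (μ⁻¹ * lam i.castSucc) * l1 ^ (δ i)
  have hG : g (Fin.last j) + ∑ i, a i • g i.castSucc = G t := by
    simp only [G]
    rw [hhsum, add_assoc]
    congr 1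
    have h1 : (C t * l2 ^ (δ i0)) • w0 = ∑ i : Fin j, (if i = i0 then C t * l2 ^ (δ i) else 0) •
        g i.castSucc := by
      rw [Finset.sum_eq_single i0]
      · rw [if_pos rfl]
      · intro i _ hi
        rw [if_neg hi, zero_smul]
      · intro h; exact absurd (Finset.mem_univ _) h
    rw [h1, ← Finset.sum_add_distrib]
    refine Finset.sum_congr rfl fun i _ => ?_
    rw [← add_smul]
    congr 1
    simp only [a]
    split_ifs <;> simp
  refine ⟨a, fun i => ?_, ?_, ?_⟩
  · simp only [a]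
    split_ifs
    · exact lin_hom _ _ _ _ _
    · exact lin_hom _ _ _ _ _
  · rw [hG]
    intro h0
    apply hhT
    have : h = -((C t * l2 ^ (δ i0)) • w0) := eq_neg_of_add_eq_zero_left h0
    rw [this]
    exact T.neg_mem (T.smul_mem _ hw0T)
  · rw [hG]
    intro s hs m c hmc
    exact sat_of_not_bad htf (G t) hbad s hs m c hmc

end Pool.Agent.Q41.TM
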