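import Pool.Agent.Q41.TM.Dual

/-!
# Saturated submodules over a unique factorization domain
-/

namespace Pool.Agent.Q41.TM

variable {S M : Type*} [CommRing S] [IsDomain S] [AddCommGroup M] [Module S M]

/-- `v` is divisible by `p` locally at `p` -/
def Bad (p : S) (v : M) : Prop := ∃ (c : S) (m : M), ¬ p ∣ c ∧ c • v = p • m

theorem Bad.zero (p : S) (hp : Prime p) : Bad p (0 : M) :=
  ⟨1, 0, fun h => hp.not_unit (isUnit_of_dvd_one h), by simp⟩

theorem Bad.add {p : S} (hp : Prime p) {v w : M} (hv : Bad p v) (hw : Bad p w) :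
    Bad p (v + w) := by
  obtain ⟨c, m, hc, h1⟩ := hv
  obtain ⟨d, n, hd, h2⟩ := hw
  refine ⟨c * d, d • m + c • n, fun h => ?_, ?_⟩
  · rcases hp.dvd_or_dvd h with h | h
    · exact hc h
    · exact hd h
  · rw [smul_add, smul_add, mul_comm c d, mul_smul, h1, mul_comm d c, mul_smul, h2,
      smul_comm p d, smul_comm p c]

theorem Bad.smul {p : S} {v : M} (a : S) (hv : Bad p v) : Bad p (a • v) := by
  obtain ⟨c, m, hc, h1⟩ := hv
  exact ⟨c, a • m, hc, by rw [smul_comm, h1, smul_comm]⟩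

theorem Bad.sub {p : S} (hp : Prime p) {v w : M} (hv : Bad p v) (hw : Bad p w) :
    Bad p (v - w) := by
  have h := Bad.add hp hv (Bad.smul (-1) hw)
  simpa [sub_eq_add_neg] using h

theorem Bad.of_smul {p : S} (hp : Prime p) {v : M} {a : S} (ha : ¬ p ∣ a) (h : Bad p (a • v)) :
    Bad p v := by
  obtain ⟨c, m, hc, h1⟩ := h
  refine ⟨c * a, m, fun h => ?_, ?_⟩
  · rcases hp.dvd_or_dvd h with h | h
    · exact hc h
    · exact ha h
  · rw [mul_smul, h1]

theorem Bad.dvd {p : S} (hp : Prime p) {v : M} (h : Bad p v) (φ : M →ₗ[S] S) : p ∣ φ v := by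
  obtain ⟨c, m, hc, h1⟩ := h
  have h2 : c * φ v = p * φ m := by
    rw [← smul_eq_mul, ← map_smul, h1, map_smul, smul_eq_mul]
  exact (hp.dvd_or_dvd ⟨_, h2⟩).resolve_left hc

theorem Bad.assoc {p q : S} (h : Associated p q) {v : M} (hv : Bad p v) : Bad q v := by
  obtain ⟨u, rfl⟩ := h
  obtain ⟨c, m, hc, h1⟩ := hv
  refine ⟨c, (↑(u⁻¹) : S) • m, fun h => hc (dvd_trans (dvd_mul_right _ _) h), ?_⟩
  rw [h1, smul_smul, mul_assoc, Units.mul_inv, mul_one]

/-- the submodule of the elements divisible by `p` locally at `p` -/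
def badSub (M : Type*) [AddCommGroup M] [Module S M] (p : S) (hp : Prime p) : Submodule S M where
  carrier := {v | Bad p v}
  add_mem' := Bad.add hp
  zero_mem' := Bad.zero p hp
  smul_mem' := fun a _ h => Bad.smul a h

theorem exists_not_bad [Module.Finite S M] [UniqueFactorizationMonoid S]
    (htf : ∀ (s : S) (m : M), s • m = 0 → s = 0 ∨ m = 0)
    (h : M) (hh : h ≠ 0) (p : S) (hp : Prime p) : ∃ m : M, ¬ Bad p m := by
  classical
  obtain ⟨φ, hφ⟩ := exists_dual htf h hh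
  have hex : ∃ n : ℕ, ∃ m : M, φ m ≠ 0 ∧ ¬ p ^ (n + 1) ∣ φ m := by
    obtain ⟨n, hn⟩ := FiniteMultiplicity.of_not_isUnit hp.not_unit hφ
    exact ⟨n, h, hφ, hn⟩
  obtain ⟨m, hm0, hm⟩ := Nat.find_spec hex
  refine ⟨m, ?_⟩
  rintro ⟨c, m', hc, h1⟩
  have h2 : c * φ m = p * φ m' := by
    rw [← smul_eq_mul, ← map_smul, h1, map_smul, smul_eq_mul]
  have h3 : φ m' ≠ 0 := by
    intro h0
    rw [h0, mul_zero, mul_eq_zero] at h2
    rcases h2 with h2 | h2
    · exact hc (h2 ▸ dvd_zero p)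
    · exact hm0 h2
  rcases hn : Nat.find hex with _ | n
  · rw [hn, zero_add, pow_one] at hm
    exact hm ((hp.dvd_or_dvd ⟨_, h2⟩).resolve_left hc)
  · have h4 := Nat.find_min hex (m := n) (by omega)
    push Not at h4
    have h5 := h4 m' h3
    rw [hn] at hm
    apply hm
    apply hp.pow_dvd_of_dvd_mul_left (n + 1 + 1) hc
    rw [h2, pow_succ']
    exact mul_dvd_mul_left p h5

/-- If `v` is not bad at any prime, then the submodule spanned by `v` is saturated. -/
theorem sat_of_not_bad [UniqueFactorizationMonoid S]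
    (htf : ∀ (s : S) (m : M), s • m = 0 → s = 0 ∨ m = 0)
    (v : M) (hv : ∀ p : S, Prime p → ¬ Bad p v) (s : S) :
    s ≠ 0 → ∀ (m : M) (c : S), s • m = c • v → ∃ c' : S, m = c' • v := by
  induction s using UniqueFactorizationMonoid.induction_on_prime with
  | h₁ => intro h; exact absurd rfl h
  | h₂ x hx =>
    intro _ m c h
    obtain ⟨u, rfl⟩ := hx
    refine ⟨(↑(u⁻¹) : S) * c, ?_⟩
    rw [mul_smul, ← h, smul_smul, Units.inv_mul, one_smul]
  | h₃ a p ha hp ih =>
    intro _ m c h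
    by_cases hc : p ∣ c
    · obtain ⟨d, rfl⟩ := hc
      have h1 : p • (a • m - d • v) = 0 := by
        rw [smul_sub, smul_smul, smul_smul, h, sub_self]
      rcases htf _ _ h1 with h2 | h2
      · exact absurd h2 hp.ne_zero
      · exact ih ha m d (sub_eq_zero.mp h2)
    · exact absurd ⟨c, a • m, hc, by rw [← h, mul_smul]⟩ (hv p hp)

/-- the saturation of a submodule -/
def satur (N : Submodule S M) : Submodule S M where
  carrier := {m | ∃ s : S, s ≠ 0 ∧ s • m ∈ N}
  add_mem' := by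
    rintro a b ⟨s, hs, h1⟩ ⟨t, ht, h2⟩
    refine ⟨s * t, mul_ne_zero hs ht, ?_⟩
    rw [smul_add]
    refine N.add_mem ?_ ?_
    · rw [mul_comm, mul_smul]; exact N.smul_mem _ h1
    · rw [mul_smul]; exact N.smul_mem _ h2
  zero_mem' := ⟨1, one_ne_zero, by simp⟩
  smul_mem' := by
    rintro c a ⟨s, hs, h1⟩
    exact ⟨s, hs, by rw [smul_comm]; exact N.smul_mem _ h1⟩

theorem le_satur (N : Submodule S M) : N ≤ satur N := fun x hx => ⟨1, one_ne_zero, by simpa using hx⟩

theorem satur_sat (N : Submodule S M) (s : S) (hs : s ≠ 0) (m : M) (h : s • m ∈ satur N) :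
    m ∈ satur N := by
  obtain ⟨t, ht, h1⟩ := h
  exact ⟨t * s, mul_ne_zero ht hs, by rwa [mul_smul]⟩

/-- the quotient by a saturated submodule is torsion-free -/
theorem quot_tf (N : Submodule S M) (hN : ∀ s : S, s ≠ 0 → ∀ m : M, s • m ∈ N → m ∈ N) (s : S)
    (m : M ⧸ N) (h : s • m = 0) : s = 0 ∨ m = 0 := by
  obtain ⟨m, rfl⟩ := Submodule.Quotient.mk_surjective N m
  by_cases hs : s = 0
  · exact Or.inl hs
  · right
    rw [← Submodule.Quotient.mk_smul, Submodule.Quotient.mk_eq_zero] at h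
    exact (Submodule.Quotient.mk_eq_zero N).mpr (hN s hs m h)

/-- a functional which vanishes on a given saturated submodule -/
theorem exists_dual_quot [Module.Finite S M] (N : Submodule S M)
    (hN : ∀ s : S, s ≠ 0 → ∀ m : M, s • m ∈ N → m ∈ N) (h : M) (hh : h ∉ N) :
    ∃ φ : M →ₗ[S] S, φ h ≠ 0 ∧ ∀ n ∈ N, φ n = 0 := by
  obtain ⟨φ, hφ⟩ := exists_dual (quot_tf N hN) (N.mkQ h)
    (by rwa [Ne, Submodule.mkQ_apply, Submodule.Quotient.mk_eq_zero])
  refine ⟨φ ∘ₗ N.mkQ, hφ, fun n hn => ?_⟩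
  rw [LinearMap.comp_apply, Submodule.mkQ_apply, (Submodule.Quotient.mk_eq_zero N).mpr hn, map_zero]

end Pool.Agent.Q41.TM
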